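import Mathlib
import Pool.Agent.H15.PL3

set_option autoImplicit false

namespace Pool.Agent.Results.MP_fc2771_gt.NotPlastic

theorem result (H : AddSubgroup ℝ) (hH : Dense (H : Set ℝ)) (hσ : IsSigmaCompact (H : Set ℝ)) :
    ∃ f : H → H, Function.Bijective f ∧ (∀ x y, dist (f x) (f y) ≤ dist x y) ∧ ¬ Isometry f := by
  refine Pool.Agent.H15.PL.main H hH (MeasurableSet.analyticSet ?_)
  obtain ⟨K, hK, e⟩ := hσ
  rw [← e]
  exact MeasurableSet.iUnion fun n => (hK n).measurableSet

end Pool.Agent.Results.MP_fc2771_gt.NotPlastic
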